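import Pool.Agent.Q131.Snk.Stm

/-! Job 4 of project SNK: Gordan's theorem. -/

namespace Pool.Agent.Q61.Snk

open Set Pool.Agent.Q131.Snk

theorem job4 : Job4 := by
  intro n m A
  classical
  set L : (Fin m → ℝ) →ₗ[ℝ] (Fin n → ℝ) :=
    { toFun := fun w => ∑ i, w i • A i
      map_add' := fun w w' => by
        simp only [Pi.add_apply, add_smul, Finset.sum_add_distrib]
      map_smul' := fun c w => by
        simp only [Pi.smul_apply, smul_eq_mul, RingHom.id_apply, Finset.smul_sum, smul_smul] }
    with hL
  have hLa : ∀ w, L w = ∑ i, w i • A i := fun w => rfl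
  set K : Set (Fin n → ℝ) := L '' stdSimplex ℝ (Fin m) with hK
  have hKc : IsCompact K := (isCompact_stdSimplex ℝ (Fin m)).image L.continuous_of_finiteDimensional
  have hKx : Convex ℝ K := (convex_stdSimplex ℝ (Fin m)).linear_image L
  by_cases h0 : (0 : Fin n → ℝ) ∈ K
  · right
    obtain ⟨w, ⟨hw0, hw1⟩, hw⟩ := h0
    refine ⟨w, hw0, ?_, fun v => ?_⟩
    · by_contra hcon
      push Not at hcon
      rw [Finset.sum_eq_zero fun i _ => hcon i] at hw1
      exact zero_ne_one hw1
    · have h1 := congrFun hw v
      rw [hLa, Finset.sum_apply] at h1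
      simpa only [Pi.smul_apply, smul_eq_mul, Pi.zero_apply] using h1
  · left
    obtain ⟨f, u, hu, hf⟩ := geometric_hahn_banach_point_closed hKx hKc.isClosed h0
    rw [map_zero] at hu
    refine ⟨fun v => f (Pi.single v 1), fun i => ?_⟩
    have hi : A i ∈ K := by
      refine ⟨Pi.single i 1, single_mem_stdSimplex ℝ i, ?_⟩
      rw [hLa, Finset.sum_eq_single i]
      · simp
      · intro j _ hj
        rw [Pi.single_eq_of_ne hj, zero_smul]
      · intro h
        exact absurd (Finset.mem_univ i) h
    have h1 : f (A i) = ∑ v, A i v * f (Pi.single v 1) := by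
      have h2 : A i = ∑ v, A i v • (Pi.single v 1 : Fin n → ℝ) := by
        funext w
        rw [Finset.sum_apply]
        simp [Pi.single_apply]
      conv_lhs => rw [h2]
      rw [map_sum]
      refine Finset.sum_congr rfl fun v _ => ?_
      rw [map_smul, smul_eq_mul]
    rw [← h1]
    exact hu.trans (hf _ hi)

end Pool.Agent.Q61.Snk
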