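import Pool.Agent.Q131.Snk.Stm

/-! Job 3 of project SNK: the Lagrangian lemma. -/

namespace Pool.Agent.Q61.Snk

open Set Pool.Agent.Q131.Snk
open scoped Classical

/-- cross product -/
def cr {n : ℕ} (x y : Fin n → ℝ) (a b : Fin n) : ℝ := x a * y b - y a * x b

/-- the determinant -/
def dd {n : ℕ} (x y h : Fin n → ℝ) (a b c : Fin n) : ℝ :=
  h a * cr x y b c + h b * cr x y c a + h c * cr x y a b

lemma cr_anti {n : ℕ} (x y : Fin n → ℝ) (a b : Fin n) : cr x y b a = - cr x y a b := by
  unfold cr; ring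

lemma dd_rot {n : ℕ} (x y h : Fin n → ℝ) (a b c : Fin n) : dd x y h b c a = dd x y h a b c := by
  unfold dd; ring

section sums

variable {n : ℕ} {F : Fin n → Fin n → Fin n → Prop} {G : SimpleGraph (Fin n)}

lemma rot_sum (φ : Fin n → Fin n → Fin n → ℝ) :
    ∑ a, ∑ b, ∑ c, φ b c a = ∑ a, ∑ b, ∑ c, φ a b c := by
  rw [Finset.sum_comm]
  refine Finset.sum_congr rfl fun b _ => ?_
  rw [Finset.sum_comm]

lemma rot_sum2 (φ : Fin n → Fin n → Fin n → ℝ) :
    ∑ a, ∑ b, ∑ c, φ c a b = ∑ a, ∑ b, ∑ c, φ a b c := by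
  rw [← rot_sum fun a b c => φ c a b]

/-- sums over faces of functions of the first two vertices -/
lemma sum_first (hex : ∀ a b, G.Adj a b → ∃ c, F a b c) (hun : ∀ a b c c', F a b c → F a b c' → c = c')
    (hadj : ∀ a b c, F a b c → G.Adj a b) (u : Fin n → Fin n → ℝ) :
    ∑ a, ∑ b, ∑ c, (if F a b c then u a b else 0) = ∑ a, ∑ b, (if G.Adj a b then u a b else 0) := by
  refine Finset.sum_congr rfl fun a _ => Finset.sum_congr rfl fun b _ => ?_
  by_cases h : G.Adj a b
  · obtain ⟨c, hc⟩ := hex a b h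
    rw [Finset.sum_eq_single c, if_pos hc, if_pos h]
    · intro c' _ hne
      rw [if_neg]
      intro hc'
      exact hne (hun a b c' c hc' hc)
    · intro h'; exact absurd (Finset.mem_univ c) h'
  · rw [if_neg h]
    refine Finset.sum_eq_zero fun c _ => ?_
    rw [if_neg]
    exact fun hc => h (hadj a b c hc)

/-- sums over faces of functions of the first and the last vertex -/
lemma sum_last (hrot : ∀ a b c, F a b c → F b c a)
    (hex : ∀ a b, G.Adj a b → ∃ c, F a b c) (hun : ∀ a b c c', F a b c → F a b c' → c = c')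
    (hadj : ∀ a b c, F a b c → G.Adj a b) (u : Fin n → Fin n → ℝ) :
    ∑ a, ∑ b, ∑ c, (if F a b c then u a c else 0) = ∑ a, ∑ b, (if G.Adj a b then u a b else 0) := by
  have h1 : ∑ a, ∑ b, ∑ c, (if F a b c then u a c else 0) =
      ∑ a, ∑ b, ∑ c, (if F a b c then u b a else 0) := by
    rw [← rot_sum2 fun a b c => (if F a b c then u b a else 0)]
    refine Finset.sum_congr rfl fun a _ => Finset.sum_congr rfl fun b _ =>
      Finset.sum_congr rfl fun c _ => ?_
    have : F a b c ↔ F c a b := ⟨fun h => hrot _ _ _ (hrot _ _ _ h), fun h => hrot _ _ _ h⟩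
    simp only [this]
  rw [h1, sum_first hex hun hadj fun a b => u b a, Finset.sum_comm]
  refine Finset.sum_congr rfl fun a _ => Finset.sum_congr rfl fun b _ => ?_
  simp only [G.adj_comm b a]

lemma distinct (hrot : ∀ a b c, F a b c → F b c a) (hadj : ∀ a b c, F a b c → G.Adj a b)
    {a b c : Fin n} (h : F a b c) : a ≠ b ∧ b ≠ c ∧ c ≠ a :=
  ⟨(hadj _ _ _ h).ne, (hadj _ _ _ (hrot _ _ _ h)).ne, (hadj _ _ _ (hrot _ _ _ (hrot _ _ _ h))).ne⟩

/-- one representative of each rotation class -/
lemma sum_three (hrot : ∀ a b c, F a b c → F b c a) (hadj : ∀ a b c, F a b c → G.Adj a b)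
    (φ : Fin n → Fin n → Fin n → ℝ) (hφ : ∀ a b c, φ b c a = φ a b c)
    (h0 : ∀ a b c, ¬ F a b c → φ a b c = 0) :
    ∑ a, ∑ b, ∑ c, φ a b c =
      3 * ∑ a, ∑ b, ∑ c, (if F a b c ∧ a < b ∧ a < c then φ a b c else 0) := by
  have h1 : ∀ a b c, φ a b c = (if F a b c ∧ a < b ∧ a < c then φ a b c else 0) +
      (if F b c a ∧ b < c ∧ b < a then φ b c a else 0) +
      (if F c a b ∧ c < a ∧ c < b then φ c a b else 0) := by
    intro a b c
    have e1 : φ b c a = φ a b c := hφ a b c
    have e2 : φ c a b = φ a b c := by rw [← hφ c a b]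
    by_cases hF : F a b c
    · have hF2 := hrot _ _ _ hF
      have hF3 := hrot _ _ _ hF2
      obtain ⟨d1, d2, d3⟩ := distinct hrot hadj hF
      simp only [hF, hF2, hF3, true_and, e1, e2]
      rcases lt_or_gt_of_ne d1 with l1 | l1 <;> rcases lt_or_gt_of_ne d2 with l2 | l2 <;>
        rcases lt_or_gt_of_ne d3 with l3 | l3 <;>
        simp only [l1, l2, l3, l1.not_gt, l2.not_gt, l3.not_gt, and_true, and_false, and_self,
          if_true, if_false, add_zero, zero_add]
      · exact absurd (l1.trans (l2.trans l3)) (lt_irrefl _)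
      · exact absurd (l3.trans (l2.trans l1)) (lt_irrefl _)
    · have hF2 : ¬ F b c a := fun h => hF (hrot _ _ _ (hrot _ _ _ h))
      have hF3 : ¬ F c a b := fun h => hF (hrot _ _ _ h)
      simp only [hF, hF2, hF3, false_and, if_false, add_zero]
      exact h0 a b c hF
  have h2 : ∑ a, ∑ b, ∑ c, φ a b c = ∑ a, ∑ b, ∑ c,
      ((if F a b c ∧ a < b ∧ a < c then φ a b c else 0) +
      (if F b c a ∧ b < c ∧ b < a then φ b c a else 0) +
      (if F c a b ∧ c < a ∧ c < b then φ c a b else 0)) :=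
    Finset.sum_congr rfl fun a _ => Finset.sum_congr rfl fun b _ =>
      Finset.sum_congr rfl fun c _ => h1 a b c
  rw [h2]
  simp only [Finset.sum_add_distrib]
  rw [rot_sum fun a b c => (if F a b c ∧ a < b ∧ a < c then φ a b c else 0),
    rot_sum2 fun a b c => (if F a b c ∧ a < b ∧ a < c then φ a b c else 0)]
  ring

/-- the number of faces -/
lemma card_faces (hrot : ∀ a b c, F a b c → F b c a)
    (hex : ∀ a b, G.Adj a b → ∃ c, F a b c) (hun : ∀ a b c c', F a b c → F a b c' → c = c')
    (hadj : ∀ a b c, F a b c → G.Adj a b) (hn : 4 ≤ n) (hE : Nat.card G.edgeSet = 3 * n - 6) :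
    Fintype.card {t : Fin n × Fin n × Fin n // F t.1 t.2.1 t.2.2 ∧ t.1 < t.2.1 ∧ t.1 < t.2.2}
      = 2 * n - 4 := by
  have h1 : ((Fintype.card {t : Fin n × Fin n × Fin n //
      F t.1 t.2.1 t.2.2 ∧ t.1 < t.2.1 ∧ t.1 < t.2.2} : ℕ) : ℝ) =
      ∑ a, ∑ b, ∑ c, (if F a b c ∧ a < b ∧ a < c then (1:ℝ) else 0) := by
    rw [Fintype.card_subtype, Finset.card_filter]
    push_cast
    rw [Fintype.sum_prod_type]
    refine Finset.sum_congr rfl fun a _ => ?_
    rw [Fintype.sum_prod_type]
  have h2 := sum_three hrot hadj (fun a b c => if F a b c then (1:ℝ) else 0)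
    (fun a b c => by
      have : F b c a ↔ F a b c := ⟨fun h => hrot _ _ _ (hrot _ _ _ h), fun h => hrot _ _ _ h⟩
      simp only [this]) (fun a b c h => if_neg h)
  have h3 : ∑ a, ∑ b, ∑ c, (if F a b c ∧ a < b ∧ a < c then (if F a b c then (1:ℝ) else 0) else 0)
      = ∑ a, ∑ b, ∑ c, (if F a b c ∧ a < b ∧ a < c then (1:ℝ) else 0) := by
    refine Finset.sum_congr rfl fun a _ => Finset.sum_congr rfl fun b _ =>
      Finset.sum_congr rfl fun c _ => ?_
    by_cases h : F a b c
    · simp only [h, true_and, if_true]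
    · simp only [h, false_and, if_false]
  rw [h3, ← h1] at h2
  have h4 := sum_first hex hun hadj (fun _ _ => (1:ℝ))
  rw [h4] at h2
  have h5 : ∑ a, ∑ b, (if G.Adj a b then (1:ℝ) else 0) = 2 * ((3 * n - 6 : ℕ) : ℝ) := by
    have h6 := G.sum_degrees_eq_twice_card_edges
    have h7 : (∑ a, ∑ b, (if G.Adj a b then (1:ℕ) else 0)) = 2 * (3 * n - 6) := by
      rw [← hE, Nat.card_eq_fintype_card, ← SimpleGraph.edgeFinset_card, ← h6]
      refine Finset.sum_congr rfl fun a _ => ?_
      rw [← SimpleGraph.card_neighborFinset_eq_degree, ← Finset.card_filter]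
      congr 1
      ext b
      simp
    have h8 := congrArg (fun k : ℕ => (k : ℝ)) h7
    push_cast at h8
    rw [← h8]
  rw [h5] at h2
  have h9 : ((2 * (3 * n - 6) : ℕ) : ℝ) = ((3 * Fintype.card {t : Fin n × Fin n × Fin n //
      F t.1 t.2.1 t.2.2 ∧ t.1 < t.2.1 ∧ t.1 < t.2.2} : ℕ) : ℝ) := by
    push_cast
    rw [← h2]
  have h10 := Nat.cast_injective h9
  omega

end sums

/-- isotropy -/
lemma iso {n : ℕ} {F : Fin n → Fin n → Fin n → Prop} {G : SimpleGraph (Fin n)}
    (x y : Fin n → ℝ) (hrot : ∀ a b c, F a b c → F b c a)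
    (hex : ∀ a b, G.Adj a b → ∃ c, F a b c) (hun : ∀ a b c c', F a b c → F a b c' → c = c')
    (hadj : ∀ a b c, F a b c → G.Adj a b) (hne : ∀ a b, G.Adj a b → cr x y a b ≠ 0)
    (h g : Fin n → ℝ) :
    ∑ a, ∑ b, ∑ c, (if F a b c then dd x y h a b c * dd x y g a b c /
      (cr x y b c * cr x y c a * cr x y a b) else 0) = 0 := by
  set φ : Fin n → Fin n → Fin n → ℝ := fun a b c => if F a b c then
    h a * g a * (cr x y b c / (cr x y c a * cr x y a b)) +
      (h a * g b + h b * g a) / cr x y a b else 0 with hφ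
  have hF2 : ∀ a b c, F b c a ↔ F a b c := fun a b c =>
    ⟨fun h => hrot _ _ _ (hrot _ _ _ h), fun h => hrot _ _ _ h⟩
  have hF3 : ∀ a b c, F c a b ↔ F a b c := fun a b c =>
    ⟨fun h => hrot _ _ _ h, fun h => hrot _ _ _ (hrot _ _ _ h)⟩
  have h1 : ∀ a b c, (if F a b c then dd x y h a b c * dd x y g a b c /
      (cr x y b c * cr x y c a * cr x y a b) else 0) = φ a b c + φ b c a + φ c a b := by
    intro a b c
    simp only [hφ, hF2, hF3]
    by_cases hF : F a b c
    · have n1 : cr x y a b ≠ 0 := hne _ _ (hadj _ _ _ hF)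
      have n2 : cr x y b c ≠ 0 := hne _ _ (hadj _ _ _ (hrot _ _ _ hF))
      have n3 : cr x y c a ≠ 0 := hne _ _ (hadj _ _ _ (hrot _ _ _ (hrot _ _ _ hF)))
      simp only [hF, if_true, dd]
      field_simp
      ring
    · simp only [hF, if_false, add_zero]
  have h2 : ∑ a, ∑ b, ∑ c, (if F a b c then dd x y h a b c * dd x y g a b c /
      (cr x y b c * cr x y c a * cr x y a b) else 0) = 3 * ∑ a, ∑ b, ∑ c, φ a b c := by
    have : ∑ a, ∑ b, ∑ c, (if F a b c then dd x y h a b c * dd x y g a b c /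
      (cr x y b c * cr x y c a * cr x y a b) else 0) =
      ∑ a, ∑ b, ∑ c, (φ a b c + φ b c a + φ c a b) :=
      Finset.sum_congr rfl fun a _ => Finset.sum_congr rfl fun b _ =>
        Finset.sum_congr rfl fun c _ => h1 a b c
    rw [this]
    simp only [Finset.sum_add_distrib]
    rw [rot_sum φ, rot_sum2 φ]
    ring
  rw [h2]
  -- the two parts
  set k : Fin n → Fin n → ℝ := fun a b => h a * g a *
    (((x a * x b + y a * y b) / cr x y a b) / (x a * x a + y a * y a)) with hk
  have h3 : ∀ a b c, φ a b c = (if F a b c then k a c else 0) - (if F a b c then k a b else 0) +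
      (if F a b c then (h a * g b + h b * g a) / cr x y a b else 0) := by
    intro a b c
    simp only [hφ, hk]
    by_cases hF : F a b c
    · have n1 : cr x y a b ≠ 0 := hne _ _ (hadj _ _ _ hF)
      have n3 : cr x y c a ≠ 0 := hne _ _ (hadj _ _ _ (hrot _ _ _ (hrot _ _ _ hF)))
      have n4 : cr x y a c ≠ 0 := by rw [cr_anti]; exact neg_ne_zero.2 n3
      have n5 : x a * x a + y a * y a ≠ 0 := by
        intro h0
        apply n1
        have hx : x a = 0 := by nlinarith [sq_nonneg (x a), sq_nonneg (y a)]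
        have hy : y a = 0 := by nlinarith [sq_nonneg (x a), sq_nonneg (y a)]
        unfold cr; rw [hx, hy]; ring
      simp only [hF, if_true]
      have e1 : cr x y b c / (cr x y c a * cr x y a b) =
          ((x a * x c + y a * y c) / cr x y a c) / (x a * x a + y a * y a) -
          ((x a * x b + y a * y b) / cr x y a b) / (x a * x a + y a * y a) := by
        rw [show cr x y c a = - cr x y a c from cr_anti x y a c]
        have n6 : -cr x y a c * cr x y a b ≠ 0 := mul_ne_zero (neg_ne_zero.2 n4) n1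
        rw [div_div, div_div, div_sub_div _ _ (mul_ne_zero n4 n5) (mul_ne_zero n1 n5),
          div_eq_div_iff n6 (mul_ne_zero (mul_ne_zero n4 n5) (mul_ne_zero n1 n5))]
        unfold cr
        ring
      rw [e1]
      ring
    · simp only [hF, if_false, add_zero, sub_zero]
  have h4 : ∑ a, ∑ b, ∑ c, φ a b c = 0 := by
    have e0 : ∑ a, ∑ b, ∑ c, φ a b c = ∑ a, ∑ b, ∑ c,
        ((if F a b c then k a c else 0) - (if F a b c then k a b else 0) +
        (if F a b c then (h a * g b + h b * g a) / cr x y a b else 0)) :=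
      Finset.sum_congr rfl fun a _ => Finset.sum_congr rfl fun b _ =>
        Finset.sum_congr rfl fun c _ => h3 a b c
    rw [e0]
    simp only [Finset.sum_add_distrib, Finset.sum_sub_distrib]
    rw [sum_last hrot hex hun hadj k, sum_first hex hun hadj k, sub_self, zero_add,
      sum_first hex hun hadj fun a b => (h a * g b + h b * g a) / cr x y a b]
    set S := ∑ a, ∑ b, (if G.Adj a b then (h a * g b + h b * g a) / cr x y a b else 0) with hS
    have e1 : S = -S := by
      conv_lhs => rw [hS, Finset.sum_comm]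
      rw [hS, ← Finset.sum_neg_distrib]
      refine Finset.sum_congr rfl fun a _ => ?_
      rw [← Finset.sum_neg_distrib]
      refine Finset.sum_congr rfl fun b _ => ?_
      simp only [G.adj_comm b a]
      by_cases hab : G.Adj a b
      · simp only [hab, if_true]
        rw [cr_anti x y a b, div_neg]
        congr 2
        ring
      · simp only [hab, if_false, neg_zero]
    linarith
  rw [h4, mul_zero]

theorem job3 : Job3 := by
  intro n G F x y hn hE hrot hadj hex hun hne hker ρ hρrot hρ0 hρ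
  have hne' : ∀ a b, G.Adj a b → cr x y a b ≠ 0 := hne
  have hker' : ∀ h : Fin n → ℝ, (∀ a b c, F a b c → dd x y h a b c = 0) →
      ∃ s t : ℝ, ∀ v, h v = s * x v + t * y v := hker
  have hρ' : ∀ h : Fin n → ℝ, ∑ a, ∑ b, ∑ c, ρ a b c * dd x y h a b c = 0 := hρ
  have hρall : ∀ a b c, ρ b c a = ρ a b c := by
    intro a b c
    by_cases hF : F a b c
    · exact (hρrot a b c hF).symm
    · rw [hρ0 a b c hF, hρ0 b c a fun h => hF (hrot _ _ _ (hrot _ _ _ h))]
  set T := {t : Fin n × Fin n × Fin n // F t.1 t.2.1 t.2.2 ∧ t.1 < t.2.1 ∧ t.1 < t.2.2} with hT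
  have hcard : Fintype.card T = 2 * n - 4 := card_faces hrot hex hun hadj hn hE
  -- the matrix
  set M : Matrix T (Fin n) ℝ := Matrix.of fun t v =>
    (if v = t.1.1 then cr x y t.1.2.1 t.1.2.2 else 0) +
    (if v = t.1.2.1 then cr x y t.1.2.2 t.1.1 else 0) +
    (if v = t.1.2.2 then cr x y t.1.1 t.1.2.1 else 0) with hM
  have hMv : ∀ h t, M.mulVec h t = dd x y h t.1.1 t.1.2.1 t.1.2.2 := by
    intro h t
    simp only [hM, Matrix.mulVec, dotProduct, Matrix.of_apply, add_mul, ite_mul, zero_mul,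
      Finset.sum_add_distrib, Finset.sum_ite_eq', Finset.mem_univ, if_true, dd]
    ring
  -- every face is a rotation of a representative
  have hrep : ∀ (P : Fin n → Fin n → Fin n → Prop), (∀ a b c, P b c a → P a b c) →
      (∀ t : T, P t.1.1 t.1.2.1 t.1.2.2) → ∀ a b c, F a b c → P a b c := by
    intro P hP h a b c hF
    obtain ⟨d1, d2, d3⟩ := distinct hrot hadj hF
    have hF2 := hrot _ _ _ hF
    have hF3 := hrot _ _ _ hF2
    rcases lt_or_gt_of_ne d1 with l1 | l1
    · rcases lt_or_gt_of_ne d3 with l3 | l3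
      · exact hP _ _ _ (hP _ _ _ (h ⟨(c, a, b), hF3, l3, l3.trans l1⟩))
      · exact h ⟨(a, b, c), hF, l1, l3⟩
    · rcases lt_or_gt_of_ne d2 with l2 | l2
      · exact hP _ _ _ (h ⟨(b, c, a), hF2, l2, l1⟩)
      · exact hP _ _ _ (hP _ _ _ (h ⟨(c, a, b), hF3, l2.trans l1, l2⟩))
  -- the kernel
  have hk2 : Module.finrank ℝ (LinearMap.ker M.mulVecLin) ≤ 2 := by
    have h1 : LinearMap.ker M.mulVecLin ≤ Submodule.span ℝ (({x, y} : Finset (Fin n → ℝ)) : Set _) := by
      intro h hh
      rw [LinearMap.mem_ker, Matrix.mulVecLin_apply] at hh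
      obtain ⟨s, t, hst⟩ := hker' h (hrep (fun a b c => dd x y h a b c = 0)
        (fun a b c h0 => by rw [← dd_rot]; exact h0) (fun t => by rw [← hMv, hh]; rfl))
      have : h = s • x + t • y := by
        funext v
        rw [hst v]; rfl
      rw [this]
      refine Submodule.add_mem _ (Submodule.smul_mem _ _ (Submodule.subset_span (by simp)))
        (Submodule.smul_mem _ _ (Submodule.subset_span (by simp)))
    refine (Submodule.finrank_mono h1).trans ((finrank_span_finset_le_card _).trans ?_)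
    exact Finset.card_le_two
  have hrk : n - 2 ≤ M.rank := by
    have h1 := M.mulVecLin.finrank_range_add_finrank_ker
    rw [Module.finrank_fin_fun] at h1
    have h2 : M.rank = Module.finrank ℝ (LinearMap.range M.mulVecLin) := rfl
    omega
  -- the two spaces
  set w : T → ℝ := fun t => (cr x y t.1.2.1 t.1.2.2 * cr x y t.1.2.2 t.1.1 * cr x y t.1.1 t.1.2.1)⁻¹
    with hw
  have hw0 : ∀ t, w t ≠ 0 := by
    intro t
    have n1 : cr x y t.1.1 t.1.2.1 ≠ 0 := hne' _ _ (hadj _ _ _ t.2.1)
    have n2 : cr x y t.1.2.1 t.1.2.2 ≠ 0 := hne' _ _ (hadj _ _ _ (hrot _ _ _ t.2.1))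
    have n3 : cr x y t.1.2.2 t.1.1 ≠ 0 := hne' _ _ (hadj _ _ _ (hrot _ _ _ (hrot _ _ _ t.2.1)))
    exact inv_ne_zero (mul_ne_zero (mul_ne_zero n2 n3) n1)
  set Dw : Matrix T (Fin n) ℝ := Matrix.diagonal w * M with hDw
  have hDwr : Dw.rank = M.rank := by
    rw [hDw]
    refine Matrix.rank_mul_eq_right_of_isUnit_det _ _ ?_
    rw [Matrix.det_diagonal]
    exact isUnit_iff_ne_zero.2 (Finset.prod_ne_zero_iff.2 fun t _ => hw0 t)
  have hDwv : ∀ h t, Dw.mulVec h t = w t * dd x y h t.1.1 t.1.2.1 t.1.2.2 := by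
    intro h t
    rw [hDw, ← Matrix.mulVec_mulVec, Matrix.mulVec_diagonal, hMv]
  -- sums over T
  have hTs : ∀ φ : Fin n → Fin n → Fin n → ℝ,
      ∑ a, ∑ b, ∑ c, (if F a b c ∧ a < b ∧ a < c then φ a b c else 0) =
      ∑ t : T, φ t.1.1 t.1.2.1 t.1.2.2 := by
    intro φ
    have h1 : ∑ t : T, φ t.1.1 t.1.2.1 t.1.2.2 =
        ∑ s ∈ (Finset.univ : Finset (Fin n × Fin n × Fin n)).filter
          (fun t => F t.1 t.2.1 t.2.2 ∧ t.1 < t.2.1 ∧ t.1 < t.2.2), φ s.1 s.2.1 s.2.2 := by
      rw [Finset.sum_subtype (p := fun t : Fin n × Fin n × Fin n =>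
        F t.1 t.2.1 t.2.2 ∧ t.1 < t.2.1 ∧ t.1 < t.2.2)]
      intro s
      simp
    rw [h1, Finset.sum_filter, Fintype.sum_prod_type]
    refine Finset.sum_congr rfl fun a _ => ?_
    rw [Fintype.sum_prod_type]
  have hle : LinearMap.range Dw.mulVecLin ≤ LinearMap.ker M.transpose.mulVecLin := by
    rintro r ⟨g, rfl⟩
    rw [LinearMap.mem_ker, Matrix.mulVecLin_apply, Matrix.mulVecLin_apply]
    have h0 : ∀ h : Fin n → ℝ, ∑ v, (M.transpose.mulVec (Dw.mulVec g)) v * h v = 0 := by
      intro h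
      have e1 : ∑ v, (M.transpose.mulVec (Dw.mulVec g)) v * h v =
          ∑ t, Dw.mulVec g t * M.mulVec h t := by
        have := Matrix.dotProduct_mulVec (Dw.mulVec g) M h
        rw [← Matrix.mulVec_transpose] at this
        exact this.symm
      rw [e1]
      have e2 := iso (F := F) (G := G) x y hrot hex hun hadj hne' g h
      rw [sum_three hrot hadj _ ?_ ?_] at e2
      · have e3 : ∑ a, ∑ b, ∑ c, (if F a b c ∧ a < b ∧ a < c then
            (if F a b c then dd x y g a b c * dd x y h a b c /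
              (cr x y b c * cr x y c a * cr x y a b) else 0) else 0) =
            ∑ t : T, Dw.mulVec g t * M.mulVec h t := by
          rw [hTs fun a b c => (if F a b c then dd x y g a b c * dd x y h a b c /
              (cr x y b c * cr x y c a * cr x y a b) else 0)]
          refine Finset.sum_congr rfl fun t _ => ?_
          rw [if_pos t.2.1, hDwv, hMv, hw]
          simp only
          rw [div_eq_mul_inv]
          ring
        rw [e3] at e2
        linarith
      · intro a b c
        have hFb : F b c a ↔ F a b c := ⟨fun h => hrot _ _ _ (hrot _ _ _ h), fun h => hrot _ _ _ h⟩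
        simp only [hFb, dd_rot]
        by_cases hF : F a b c
        · simp only [hF, if_true]
          congr 1
          ring
        · simp only [hF, if_false]
      · intro a b c hF
        simp only [hF, if_false]
    funext v
    have := h0 (Pi.single v 1)
    rw [Finset.sum_eq_single v] at this
    · simpa using this
    · intro u _ hu
      rw [Pi.single_eq_of_ne hu, mul_zero]
    · intro hv; exact absurd (Finset.mem_univ v) hv
  have heq : LinearMap.range Dw.mulVecLin = LinearMap.ker M.transpose.mulVecLin := by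
    refine Submodule.eq_of_le_of_finrank_le hle ?_
    have h1 := M.transpose.mulVecLin.finrank_range_add_finrank_ker
    rw [Module.finrank_fintype_fun_eq_card, hcard] at h1
    have h2 : Module.finrank ℝ (LinearMap.range M.transpose.mulVecLin) = M.rank := by
      rw [← Matrix.rank_transpose M]; rfl
    have h3 : Module.finrank ℝ (LinearMap.range Dw.mulVecLin) = M.rank := by
      rw [← hDwr]; rfl
    rw [h3]
    omega
  -- conclusion
  have hmem : (fun t : T => ρ t.1.1 t.1.2.1 t.1.2.2) ∈ LinearMap.ker M.transpose.mulVecLin := by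
    rw [LinearMap.mem_ker, Matrix.mulVecLin_apply]
    have h0 : ∀ h : Fin n → ℝ,
        ∑ v, (M.transpose.mulVec (fun t : T => ρ t.1.1 t.1.2.1 t.1.2.2)) v * h v = 0 := by
      intro h
      have e1 : ∑ v, (M.transpose.mulVec (fun t : T => ρ t.1.1 t.1.2.1 t.1.2.2)) v * h v =
          ∑ t : T, ρ t.1.1 t.1.2.1 t.1.2.2 * M.mulVec h t := by
        have := Matrix.dotProduct_mulVec (fun t : T => ρ t.1.1 t.1.2.1 t.1.2.2) M h
        rw [← Matrix.mulVec_transpose] at this
        exact this.symm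
      rw [e1]
      have e2 := hρ' h
      rw [sum_three hrot hadj _ (fun a b c => by rw [dd_rot, hρall])
        (fun a b c hF => by rw [hρ0 a b c hF, zero_mul]), hTs fun a b c => ρ a b c * dd x y h a b c] at e2
      have e3 : ∑ t : T, ρ t.1.1 t.1.2.1 t.1.2.2 * M.mulVec h t =
          ∑ t : T, ρ t.1.1 t.1.2.1 t.1.2.2 * dd x y h t.1.1 t.1.2.1 t.1.2.2 :=
        Finset.sum_congr rfl fun t _ => by rw [hMv]
      rw [e3]
      linarith
    funext v
    have := h0 (Pi.single v 1)
    rw [Finset.sum_eq_single v] at this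
    · simpa using this
    · intro u _ hu
      rw [Pi.single_eq_of_ne hu, mul_zero]
    · intro hv; exact absurd (Finset.mem_univ v) hv
  rw [← heq] at hmem
  obtain ⟨g, hg⟩ := hmem
  refine ⟨g, ?_⟩
  show ∀ a b c, F a b c → dd x y g a b c =
    ρ a b c * (cr x y b c * cr x y c a * cr x y a b)
  refine hrep (fun a b c => dd x y g a b c = ρ a b c * (cr x y b c * cr x y c a * cr x y a b))
    (fun a b c h1 => ?_) (fun t => ?_)
  · rw [← dd_rot, h1, hρall a b c]
    ring
  · have h1 := congrFun hg t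
    rw [Matrix.mulVecLin_apply, hDwv] at h1
    have h2 : w t ≠ 0 := hw0 t
    have h3 : w t * (cr x y t.1.2.1 t.1.2.2 * cr x y t.1.2.2 t.1.1 * cr x y t.1.1 t.1.2.1) = 1 := by
      rw [hw]
      simp only
      refine inv_mul_cancel₀ ?_
      intro h4
      apply h2
      rw [hw]
      simp only
      rw [h4, inv_zero]
    rw [← h1]
    calc dd x y g t.1.1 t.1.2.1 t.1.2.2 = dd x y g t.1.1 t.1.2.1 t.1.2.2 *
        (w t * (cr x y t.1.2.1 t.1.2.2 * cr x y t.1.2.2 t.1.1 * cr x y t.1.1 t.1.2.1)) := by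
          rw [h3, mul_one]
      _ = _ := by ring

end Pool.Agent.Q61.Snk
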